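import Mathlib

/-!
# The mixed cubic sum of Shapiro Catalan triangle numbers

The conjectured identity holds for all `n, m ≥ 1`.

Proof: with `b(n,k) = C(2n,n+k)` and `Φ(m) = ∑_k k^3 b(n,k)^2 b(m,k)` the certificate
`G(k) = b(n,k)^2 b(m+1,k) (n+k)^2 (m+1+k) (n(m+1) + (n+2m+2)k(k-1))` gives a first order recurrence
for `Φ` in `m`; its solution is
`2 C(n+m,n)^2 Φ(m) = n^2 C(2n,n)^2 C(2m,m) (m C(n+m,n)^2 - (n+2m) ∑_{j<m} C(n+j,n) C(n+j,n-1))`
for all `m ≥ 0`.  This is the claim for `m ≤ n`; for `m ≥ n` one uses the identity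
`n C(2n,n) ∑_{j<m} C(n+j,n) C(n+j,n-1) = m C(n+m,n) ∑_{j<n} C(m+j,m) C(n+j,n-1)`.
-/

namespace Pool.Agent.Results.MP_651eca_nt.MixedCubicSum

open Finset

/-- Shapiro's Catalan triangle: `B_{n,k} = (k/n) C(2n,n-k)` for `1 ≤ k ≤ n`. -/
def B (n k : ℕ) : ℚ := (k : ℚ) / n * ((2 * n).choose (n - k) : ℚ)

/-- `(b+1) C(a,b+1) = (a-b) C(a,b)`. -/
lemma ch_step (a b : ℕ) :
    ((b : ℚ) + 1) * (a.choose (b + 1) : ℚ) = ((a : ℚ) - b) * (a.choose b : ℚ) := by
  rcases lt_or_ge a b with h | h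
  · rw [Nat.choose_eq_zero_of_lt h, Nat.choose_eq_zero_of_lt (by omega)]; simp
  · have h1 := Nat.choose_succ_right_eq a b
    have h2 : ((a.choose (b + 1) * (b + 1) : ℕ) : ℚ) = ((a.choose b * (a - b) : ℕ) : ℚ) := by
      rw [h1]
    push_cast [Nat.cast_sub h] at h2
    linarith

/-- `(a+1-b) C(a+1,b) = (a+1) C(a,b)`. -/
lemma ch_top (a b : ℕ) :
    ((a : ℚ) + 1 - b) * ((a + 1).choose b : ℚ) = ((a : ℚ) + 1) * (a.choose b : ℚ) := by
  rcases lt_or_ge a b with h | h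
  · rw [Nat.choose_eq_zero_of_lt h]
    rcases eq_or_lt_of_le (Nat.succ_le_of_lt h) with h' | h'
    · have : (b : ℚ) = a + 1 := by rw [← h']; push_cast; ring
      rw [this]; ring
    · rw [Nat.choose_eq_zero_of_lt (by omega : a + 1 < b)]; simp
  · have h1 := Nat.choose_mul_succ_eq a b
    have h2 : ((a.choose b * (a + 1) : ℕ) : ℚ) = (((a + 1).choose b * (a + 1 - b) : ℕ) : ℚ) := by
      rw [h1]
    push_cast [Nat.cast_sub (by omega : b ≤ a + 1)] at h2
    linarith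

/-- `(b+1) C(a+1,b+1) = (a+1) C(a,b)`. -/
lemma ch_diag (a b : ℕ) :
    ((b : ℚ) + 1) * ((a + 1).choose (b + 1) : ℚ) = ((a : ℚ) + 1) * (a.choose b : ℚ) := by
  have h1 := Nat.add_one_mul_choose_eq a b
  have h2 : (((a + 1) * a.choose b : ℕ) : ℚ) = (((a + 1).choose (b + 1) * (b + 1) : ℕ) : ℚ) := by
    rw [h1]
  push_cast at h2
  linarith

/-- `b(n,k) = C(2n,n+k)`. -/
def b (n k : ℕ) : ℚ := ((2 * n).choose (n + k) : ℚ)

lemma b_succ (n k : ℕ) : ((n : ℚ) + k + 1) * b n (k + 1) = ((n : ℚ) - k) * b n k := by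
  have h := ch_step (2 * n) (n + k)
  simp only [b]
  rw [show n + (k + 1) = n + k + 1 by ring]
  push_cast at h
  linear_combination h

lemma b_top (m k : ℕ) : (((m : ℚ) + 1) ^ 2 - (k : ℚ) ^ 2) * b (m + 1) k =
    2 * ((m : ℚ) + 1) * (2 * m + 1) * b m k := by
  have h1 := ch_diag (2 * m + 1) (m + k)
  have h2 := ch_top (2 * m) (m + k)
  simp only [b]
  rw [show 2 * (m + 1) = 2 * m + 1 + 1 by ring, show m + 1 + k = m + k + 1 by ring]
  push_cast at h1 h2
  linear_combination ((m : ℚ) + 1 - k) * h1 + (2 * (m : ℚ) + 2) * h2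

lemma b_zero_of_lt {n k : ℕ} (h : n < k) : b n k = 0 := by
  simp only [b]
  rw [Nat.choose_eq_zero_of_lt (by omega)]
  simp

/-- `Φ_K(n,m) = ∑_{k<K} k^3 b(n,k)^2 b(m,k)`. -/
def Φ (K n m : ℕ) : ℚ := ∑ k ∈ range K, (k : ℚ) ^ 3 * b n k ^ 2 * b m k

/-- The certificate. -/
def G (n m k : ℕ) : ℚ := b n k ^ 2 * b (m + 1) k * ((n : ℚ) + k) ^ 2 * ((m : ℚ) + 1 + k) *
  ((n : ℚ) * (m + 1) + (n + 2 * m + 2) * k * (k - 1))

lemma G_step (n m k : ℕ) : G n m (k + 1) - G n m k =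
    -2 * (((n : ℚ) + m + 1) ^ 2 * (n + 2 * m) * ((k : ℚ) ^ 3 * b n k ^ 2 * b (m + 1) k) -
      2 * (m + 1) * (2 * m + 1) * (n + 2 * m + 2) * ((k : ℚ) ^ 3 * b n k ^ 2 * b m k)) := by
  have h1 := b_succ n k
  have h2 := b_succ (m + 1) k
  have h3 := b_top m k
  simp only [G]
  push_cast at *
  generalize b n (k + 1) = x' at *
  generalize b n k = x at *
  generalize b (m + 1) (k + 1) = y' at *
  generalize b (m + 1) k = y at *
  generalize b m k = z at *
  generalize (n : ℚ) = n at *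
  generalize (m : ℚ) = m at *
  generalize (k : ℚ) = k at *
  linear_combination ((n * (m + 1) + (n + 2 * m + 2) * (k + 1) * k) * (m + 1 + k + 1) * y' *
      (x' * (n + k + 1) + (n - k) * x)) * h1 +
    ((n * (m + 1) + (n + 2 * m + 2) * (k + 1) * k) * ((n - k) * x) ^ 2) * h2 +
    (2 * (n + 2 * m + 2) * k ^ 3 * x ^ 2) * h3

lemma Φ_rec (K n m : ℕ) (hK : n < K) :
    ((n : ℚ) + m + 1) ^ 2 * (n + 2 * m) * Φ K n (m + 1) =
      2 * (m + 1) * (2 * m + 1) * (n + 2 * m + 2) * Φ K n m +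
        1 / 2 * (n : ℚ) ^ 3 * (m + 1) ^ 2 * b n 0 ^ 2 * b (m + 1) 0 := by
  have h1 : ∑ k ∈ range K, (G n m (k + 1) - G n m k) = G n m K - G n m 0 :=
    sum_range_sub (G n m) K
  have h2 : G n m K = 0 := by
    simp only [G]
    rw [b_zero_of_lt hK]
    simp
  rw [sum_congr rfl fun k _ => G_step n m k, ← mul_sum, sum_sub_distrib, ← mul_sum, ← mul_sum,
    h2] at h1
  simp only [G, Φ] at *
  push_cast at h1
  linear_combination (-1 / 2) * h1

/-- `Y(m) = ∑_{j<m} C(n+j,n) C(n+j,n-1)`, with `n = N+1`. -/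
def Y (N m : ℕ) : ℚ :=
  ∑ j ∈ range m, ((N + 1 + j).choose (N + 1) : ℚ) * ((N + 1 + j).choose N : ℚ)

/-- The closed form. -/
lemma closed (K N m : ℕ) (hK : N + 1 < K) :
    2 * ((N + 1 + m).choose (N + 1) : ℚ) ^ 2 * Φ K (N + 1) m =
      ((N : ℚ) + 1) ^ 2 * b (N + 1) 0 ^ 2 * b m 0 *
        (m * ((N + 1 + m).choose (N + 1) : ℚ) ^ 2 - (N + 1 + 2 * m) * Y N m) := by
  induction m with
  | zero =>
    have h : Φ K (N + 1) 0 = 0 := by
      simp only [Φ]
      refine sum_eq_zero fun k _ => ?_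
      rcases Nat.eq_zero_or_pos k with rfl | hk
      · simp
      · rw [b_zero_of_lt hk]; simp
    rw [h]
    simp [Y]
  | succ m ih =>
    have h1 := Φ_rec K (N + 1) m hK
    have h2 : Y N (m + 1) = Y N m +
        ((N + 1 + m).choose (N + 1) : ℚ) * ((N + 1 + m).choose N : ℚ) := by
      simp only [Y]; rw [sum_range_succ]
    have h3 := ch_top (N + 1 + m) (N + 1)
    have h4 := ch_step (N + 1 + m) N
    have h5 := b_top m 0
    rw [h2]
    rw [show N + 1 + (m + 1) = N + 1 + m + 1 by ring]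
    push_cast at *
    have n2 : ((m : ℚ) + 1) ≠ 0 := by positivity
    have n4 : ((N : ℚ) + 1 + 2 * m) ≠ 0 := by positivity
    generalize (((N + 1 + m + 1).choose (N + 1) : ℕ) : ℚ) = c' at *
    generalize (((N + 1 + m).choose (N + 1) : ℕ) : ℚ) = c at *
    generalize (((N + 1 + m).choose N : ℕ) : ℚ) = d at *
    generalize Φ K (N + 1) (m + 1) = P' at *
    generalize Φ K (N + 1) m = P at *
    generalize b (N + 1) 0 = g at *
    generalize b (m + 1) 0 = s' at *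
    generalize b m 0 = s at *
    generalize Y N m = y at *
    obtain ⟨u, hu⟩ : ∃ u : ℚ, c = (m + 1) * u := ⟨c / (m + 1), by field_simp⟩
    obtain ⟨v, hv⟩ : ∃ v : ℚ, s = (m + 1) * v := ⟨s / (m + 1), by field_simp⟩
    have e3 : c' = ((N : ℚ) + 1 + m + 1) * u := by
      apply mul_left_cancel₀ n2; rw [hu] at h3; linear_combination h3
    have e4 : d = ((N : ℚ) + 1) * u := by
      apply mul_left_cancel₀ n2; rw [hu] at h4; linear_combination -h4
    have e5 : s' = 2 * (2 * (m : ℚ) + 1) * v := by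
      apply mul_left_cancel₀ (pow_ne_zero 2 n2); rw [hv] at h5; linear_combination h5
    have ih' : 2 * ((m : ℚ) + 1) * u ^ 2 * P = ((N : ℚ) + 1) ^ 2 * g ^ 2 * v *
        (m * ((m + 1) * u) ^ 2 - (N + 1 + 2 * m) * y) := by
      apply mul_left_cancel₀ n2; rw [hu, hv] at ih; linear_combination ih
    rw [e3, e4, e5, hu]
    rw [e5] at h1
    apply mul_left_cancel₀ n4
    linear_combination 2 * u ^ 2 * h1 + (2 * (2 * (m : ℚ) + 1) * (N + 3 + 2 * m)) * ih'

/-- `Z(m) = ∑_{j<n} C(m+j,m) C(n+j,n-1)`, with `n = N+1`. -/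
def Z (N m : ℕ) : ℚ :=
  ∑ j ∈ range (N + 1), ((m + j).choose m : ℚ) * ((N + 1 + j).choose N : ℚ)

/-- Telescoping in `j`. -/
lemma Z_tele (N m J : ℕ) :
    ((m : ℚ) + 1) * ∑ j ∈ range J, (((N : ℚ) + m + 2) * ((m + 1 + j).choose (m + 1) : ℚ) -
      m * ((m + j).choose m : ℚ)) * ((N + 1 + j).choose N : ℚ) =
    ((N + 1 + J).choose N : ℚ) * ((m + J).choose m : ℚ) * J * (J + 1) := by
  induction J with
  | zero => simp
  | succ J ih =>
    rw [sum_range_succ, mul_add, ih]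
    have h1 := ch_top (N + 1 + J) N
    have h2 := ch_diag (m + J) m
    have h3 := ch_top (m + J) m
    rw [show N + 1 + (J + 1) = N + 1 + J + 1 by ring, show m + (J + 1) = m + J + 1 by ring,
      show m + 1 + J = m + J + 1 by ring]
    push_cast at *
    generalize (((N + 1 + J + 1).choose N : ℕ) : ℚ) = a' at *
    generalize (((N + 1 + J).choose N : ℕ) : ℚ) = a at *
    generalize (((m + J + 1).choose (m + 1) : ℕ) : ℚ) = c'' at *
    generalize (((m + J + 1).choose m : ℕ) : ℚ) = c' at *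
    generalize (((m + J).choose m : ℕ) : ℚ) = c at *
    linear_combination (a * ((N : ℚ) + m + 2)) * h2 - (a' * (J + 2)) * h3 -
      (((m : ℚ) + J + 1) * c) * h1

/-- The identity for `m ≥ n`. -/
lemma YZ (N d : ℕ) :
    ((N : ℚ) + 1) * ((2 * (N + 1)).choose (N + 1) : ℚ) * Y N (N + 1 + d) =
      ((N + 1 + d : ℕ) : ℚ) * ((N + 1 + (N + 1 + d)).choose (N + 1) : ℚ) * Z N (N + 1 + d) := by
  induction d with
  | zero =>
    simp only [Y, Z, add_zero]
    rw [show 2 * (N + 1) = N + 1 + (N + 1) by ring]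
    push_cast
    ring
  | succ d ih =>
    obtain ⟨m, hm⟩ : ∃ m, m = N + 1 + d := ⟨_, rfl⟩
    rw [show N + 1 + (d + 1) = N + 1 + d + 1 by ring]
    rw [← hm] at ih ⊢
    have h1 : Y N (m + 1) = Y N m +
        ((N + 1 + m).choose (N + 1) : ℚ) * ((N + 1 + m).choose N : ℚ) := by
      simp only [Y]; rw [sum_range_succ]
    have h2 := Z_tele N m (N + 1)
    have h3 : ∑ j ∈ range (N + 1), (((N : ℚ) + m + 2) * ((m + 1 + j).choose (m + 1) : ℚ) -
      m * ((m + j).choose m : ℚ)) * ((N + 1 + j).choose N : ℚ) =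
      ((N : ℚ) + m + 2) * Z N (m + 1) - m * Z N m := by
      simp only [Z]
      rw [mul_sum, mul_sum, ← sum_sub_distrib]
      refine sum_congr rfl fun j _ => by ring
    rw [h3] at h2
    have h4 := ch_step (2 * (N + 1)) N
    have h5 := ch_step (N + 1 + m) N
    have h6 := ch_top (N + 1 + m) (N + 1)
    rw [h1, show N + 1 + (m + 1) = N + 1 + m + 1 by ring]
    rw [show N + 1 + (N + 1) = 2 * (N + 1) by ring, show m + (N + 1) = N + 1 + m by ring] at h2
    rw [show (N + 1 + m).choose m = (N + 1 + m).choose (N + 1) by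
      rw [← Nat.choose_symm_add]] at h2
    push_cast at *
    have n2 : ((m : ℚ) + 1) ≠ 0 := by positivity
    generalize (((2 * (N + 1)).choose (N + 1) : ℕ) : ℚ) = g at *
    generalize (((2 * (N + 1)).choose N : ℕ) : ℚ) = g' at *
    generalize (((N + 1 + m + 1).choose (N + 1) : ℕ) : ℚ) = c' at *
    generalize (((N + 1 + m).choose (N + 1) : ℕ) : ℚ) = c at *
    generalize (((N + 1 + m).choose N : ℕ) : ℚ) = e at *
    generalize Z N (m + 1) = z' at *
    generalize Z N m = z at *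
    generalize Y N m = y at *
    apply mul_left_cancel₀ n2
    linear_combination ((m : ℚ) + 1) * ih - (((N : ℚ) + 1) * g * c) * h5 -
      (((m : ℚ) + 1) * z') * h6 - c * h2 + (((N : ℚ) + 1) * c ^ 2) * h4

lemma B_eq {n k : ℕ} (hk : k ≤ n) : B n k = (k : ℚ) / n * b n k := by
  simp only [B, b]
  rw [← Nat.choose_symm (by omega : n + k ≤ 2 * n), show 2 * n - (n + k) = n - k by omega]

lemma sum_eq (n m : ℕ) (hn : 1 ≤ n) (hm : 1 ≤ m) :
    ((n : ℚ) ^ 2 * m) * ∑ k ∈ Icc 1 (min n m), B n k ^ 2 * B m k = Φ (n + 1) n m := by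
  have n1 : (n : ℚ) ≠ 0 := by positivity
  have n2 : (m : ℚ) ≠ 0 := by positivity
  rw [Φ, mul_sum]
  refine (sum_subset_zero_on_sdiff ?_ ?_ ?_)
  · intro k hk
    simp only [mem_Icc, mem_range] at *
    omega
  · intro k hk
    simp only [mem_sdiff, mem_Icc, mem_range] at hk
    rcases Nat.eq_zero_or_pos k with rfl | hk0
    · simp
    · rw [b_zero_of_lt (by omega : m < k)]; simp
  · intro k hk
    simp only [mem_Icc] at hk
    rw [B_eq (by omega : k ≤ n), B_eq (by omega : k ≤ m)]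
    field_simp

/-- The conjectured identity, for all `n, m ≥ 1`. -/
theorem result : ∀ n m : ℕ, 1 ≤ n → 1 ≤ m →
    ∑ k ∈ Icc 1 (min n m), B n k ^ 2 * B m k =
      1 / 2 * ((2 * n).choose n : ℚ) ^ 2 * ((2 * m).choose m : ℚ) *
        (1 - ((n : ℚ) + 2 * m) / ((min n m : ℕ) : ℚ) * ((n + m).choose n : ℚ)⁻¹ *
          ((n + min n m).choose n : ℚ)⁻¹ *
          ∑ j ∈ range (min n m), ((max n m + j).choose (max n m) : ℚ) *
            ((n + j).choose (n - 1) : ℚ)) := by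
  intro n m hn hm
  obtain ⟨N, rfl⟩ : ∃ N, n = N + 1 := ⟨n - 1, by omega⟩
  have h1 := sum_eq (N + 1) m hn hm
  have h2 := closed (N + 1 + 1) N m (by omega)
  rw [← h1] at h2
  simp only [b, add_zero] at h2
  have c1 : ((N + 1 + m).choose (N + 1) : ℚ) ≠ 0 := by
    have := Nat.choose_pos (show N + 1 ≤ N + 1 + m by omega)
    exact_mod_cast this.ne'
  have n1 : ((N : ℚ) + 1) ≠ 0 := by positivity
  have n2 : (m : ℚ) ≠ 0 := by
    have : m ≠ 0 := by omega
    exact_mod_cast this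
  have key : ∀ W : ℚ, ((m : ℚ) * ((N + 1 + m).choose (N + 1) : ℚ)) * W = Y N m →
      ∑ k ∈ Icc 1 (min (N + 1) m), B (N + 1) k ^ 2 * B m k =
      1 / 2 * ((2 * (N + 1)).choose (N + 1) : ℚ) ^ 2 * ((2 * m).choose m : ℚ) *
        (1 - ((N : ℚ) + 1 + 2 * m) * ((N + 1 + m).choose (N + 1) : ℚ)⁻¹ * W) := by
    intro W hW
    rw [← hW] at h2
    push_cast at h2
    generalize ∑ k ∈ Icc 1 (min (N + 1) m), B (N + 1) k ^ 2 * B m k = S at *
    generalize (((2 * (N + 1)).choose (N + 1) : ℕ) : ℚ) = g at *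
    generalize (((2 * m).choose m : ℕ) : ℚ) = g' at *
    generalize (((N + 1 + m).choose (N + 1) : ℕ) : ℚ) = c at *
    have hc : c * c⁻¹ = 1 := mul_inv_cancel₀ c1
    apply mul_left_cancel₀ (mul_ne_zero (mul_ne_zero (pow_ne_zero 2 n1) n2) (pow_ne_zero 2 c1))
    linear_combination (1 / 2) * h2 + (1 / 2 * g ^ 2 * g' * (N + 1) ^ 2 * m * c * (N + 1 + 2 * m) * W) * hc
  rcases le_total m (N + 1) with hle | hle
  · rw [min_eq_right hle, max_eq_left hle]
    rw [min_eq_right hle] at key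
    rw [key ((m : ℚ)⁻¹ * ((N + 1 + m).choose (N + 1) : ℚ)⁻¹ * Y N m) (by
      rw [← mul_assoc, mul_mul_mul_comm, mul_inv_cancel₀ n2, mul_inv_cancel₀ c1]; ring)]
    simp only [Y, add_tsub_cancel_right]
    push_cast
    ring
  · rw [min_eq_left hle, max_eq_right hle]
    rw [min_eq_left hle] at key
    obtain ⟨d, rfl⟩ : ∃ d, m = N + 1 + d := ⟨m - (N + 1), by omega⟩
    have c2 : ((2 * (N + 1)).choose (N + 1) : ℚ) ≠ 0 := by
      have := Nat.choose_pos (show N + 1 ≤ 2 * (N + 1) by omega)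
      exact_mod_cast this.ne'
    have h3 := YZ N d
    rw [key (((N : ℚ) + 1)⁻¹ * ((2 * (N + 1)).choose (N + 1) : ℚ)⁻¹ * Z N (N + 1 + d)) (by
      apply mul_left_cancel₀ (mul_ne_zero n1 c2)
      rw [h3]
      have e1 := mul_inv_cancel₀ n1
      have e2 := mul_inv_cancel₀ c2
      generalize (((2 * (N + 1)).choose (N + 1) : ℕ) : ℚ) = g at *
      generalize (((N + 1 + (N + 1 + d)).choose (N + 1) : ℕ) : ℚ) = c at *
      generalize ((N + 1 + d : ℕ) : ℚ) = m at *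
      generalize Z N (N + 1 + d) = z at *
      linear_combination (m * c * z * g * g⁻¹) * e1 + (m * c * z) * e2)]
    simp only [Z, add_tsub_cancel_right]
    rw [show N + 1 + (N + 1) = 2 * (N + 1) by ring]
    push_cast
    ring

end Pool.Agent.Results.MP_651eca_nt.MixedCubicSum
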